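import Pool.Agent.R59.CK.Lower
import Pool.Agent.R59.CK.Upper

namespace Pool.Agent.Results.MP_4befb3_co.ExactValue

open Pool.Agent.R59.CK

lemma ceil_le_iff (n c : ℕ) :
    ⌈(5 - 2 * (n : ℝ) + √(8 * (n : ℝ) ^ 2 - 24 * n + 25)) / 2⌉₊ ≤ c ↔
      1 ≤ c ∧ n * (n - 1) + 5 * c ≤ c ^ 2 + 2 * n * c := by
  have hreal : ((n * (n - 1) + 5 * c ≤ c ^ 2 + 2 * n * c : Prop)) ↔
      ((n : ℝ) ^ 2 - n + 5 * c ≤ (c : ℝ) ^ 2 + 2 * n * c) := by
    have h1 : ((n * (n - 1) : ℕ) : ℝ) = (n : ℝ) ^ 2 - n := by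
      rcases Nat.eq_zero_or_pos n with h | h
      · subst h
        simp
      · rw [Nat.cast_mul, Nat.cast_sub h]
        push_cast
        ring
    rw [← h1]
    constructor
    · intro h
      exact_mod_cast h
    · intro h
      exact_mod_cast h
  rw [Nat.ceil_le]
  have h2 : (5 - 2 * (n : ℝ) + √(8 * (n : ℝ) ^ 2 - 24 * n + 25)) / 2 ≤ c ↔
      √(8 * (n : ℝ) ^ 2 - 24 * n + 25) ≤ 2 * c + 2 * n - 5 := by
    constructor <;> intro h <;> linarith
  rw [h2, Real.sqrt_le_iff]
  constructor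
  · rintro ⟨h3, h4⟩
    have h5 : (n : ℝ) ^ 2 - n + 5 * c ≤ (c : ℝ) ^ 2 + 2 * n * c := by nlinarith
    refine ⟨?_, hreal.2 h5⟩
    by_contra hcon
    have hc : c = 0 := by omega
    subst hc
    have h6 : (5 : ℝ) ≤ 2 * n := by
      push_cast at h3
      linarith
    push_cast at h5
    nlinarith
  · rintro ⟨h3, h4⟩
    have h5 := hreal.1 h4
    have h6 : 3 ≤ c + n := by
      by_contra hcon
      have hc : c ≤ 2 := by omega
      have hn : n ≤ 1 := by omega
      interval_cases c <;> interval_cases n <;> omega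
    have h7 : (3 : ℝ) ≤ c + n := by exact_mod_cast h6
    exact ⟨by linarith, by nlinarith⟩

/-- **The half-chromatic number of the continuous complete graph `Γ(K_n)`**: it equals
`min (⌈n/2⌉, ⌈(5 - 2n + √(8n² - 24n + 25)) / 2⌉)`, for every `n`.
Consequently the conjectured value `⌈n/2⌉` is the correct one exactly for
`n ≤ 10` and `n = 12, 14, 16`. -/
theorem result (n : ℕ) :
    IsLeast {c : ℕ | HalfColourable (Fin n) c}
      (min ((n + 1) / 2) ⌈(5 - 2 * (n : ℝ) + √(8 * (n : ℝ) ^ 2 - 24 * n + 25)) / 2⌉₊) ∧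
    (IsLeast {c : ℕ | HalfColourable (Fin n) c} ((n + 1) / 2) ↔
      n ≤ 10 ∨ n = 12 ∨ n = 14 ∨ n = 16) := by
  have main : IsLeast {c : ℕ | HalfColourable (Fin n) c}
      (min ((n + 1) / 2) ⌈(5 - 2 * (n : ℝ) + √(8 * (n : ℝ) ^ 2 - 24 * n + 25)) / 2⌉₊) := by
    constructor
    · change HalfColourable (Fin n) _
      rcases le_or_gt ((n + 1) / 2)
        ⌈(5 - 2 * (n : ℝ) + √(8 * (n : ℝ) ^ 2 - 24 * n + 25)) / 2⌉₊ with h | h
      · rw [min_eq_left h]
        exact (upper_half n).halfColourable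
      · rw [min_eq_right h.le]
        obtain ⟨h1, h2⟩ := (ceil_le_iff n _).1 le_rfl
        exact (upper_star h1 h2 (by omega)).halfColourable
    · intro c hc
      have hc : HalfColourable (Fin n) c := hc
      by_cases h : 2 * c < n
      · have h1 := lower hc.good (by rw [Fintype.card_fin]; exact h)
        rw [Fintype.card_fin] at h1
        exact (min_le_right _ _).trans ((ceil_le_iff n c).2 h1)
      · exact (min_le_left _ _).trans (by omega)
  refine ⟨main, ?_⟩
  have h1 : IsLeast {c : ℕ | HalfColourable (Fin n) c} ((n + 1) / 2) ↔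
      ¬ ⌈(5 - 2 * (n : ℝ) + √(8 * (n : ℝ) ^ 2 - 24 * n + 25)) / 2⌉₊ + 1 ≤ (n + 1) / 2 := by
    constructor
    · intro h
      have h2 := h.unique main
      have h3 : (n + 1) / 2 ≤ ⌈(5 - 2 * (n : ℝ) + √(8 * (n : ℝ) ^ 2 - 24 * n + 25)) / 2⌉₊ := by
        rw [h2]
        exact min_le_right _ _
      omega
    · intro h
      have h3 : min ((n + 1) / 2) ⌈(5 - 2 * (n : ℝ) + √(8 * (n : ℝ) ^ 2 - 24 * n + 25)) / 2⌉₊ =
          (n + 1) / 2 := min_eq_left (by omega)
      rw [← h3]
      exact main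
  rw [h1]
  by_cases hsmall : n ≤ 1
  · have : ¬ ⌈(5 - 2 * (n : ℝ) + √(8 * (n : ℝ) ^ 2 - 24 * n + 25)) / 2⌉₊ + 1 ≤ (n + 1) / 2 := by
      intro h
      have h2 := ((ceil_le_iff n _).1 le_rfl).1
      omega
    constructor
    · intro _
      omega
    · intro _
      exact this
  · have h4 : ⌈(5 - 2 * (n : ℝ) + √(8 * (n : ℝ) ^ 2 - 24 * n + 25)) / 2⌉₊ + 1 ≤ (n + 1) / 2 ↔
        ⌈(5 - 2 * (n : ℝ) + √(8 * (n : ℝ) ^ 2 - 24 * n + 25)) / 2⌉₊ ≤ (n + 1) / 2 - 1 := by
      omega
    rw [h4, ceil_le_iff]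
    rcases Nat.even_or_odd' n with ⟨m, hm | hm⟩
    · have e1 : (n + 1) / 2 - 1 = m - 1 := by omega
      rw [e1]
      obtain ⟨k, rfl⟩ : ∃ k, m = k + 1 := ⟨m - 1, by omega⟩
      have e2 : n - 1 = 2 * k + 1 := by omega
      rw [e2, hm, Nat.add_sub_cancel]
      constructor
      · intro h
        have : k < 8 := by
          by_contra hcon
          push Not at hcon
          apply h
          refine ⟨by omega, ?_⟩
          nlinarith
        omega
      · intro h
        have hk : k ≤ 7 := by omega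
        intro hcon
        interval_cases k <;> omega
    · have e1 : (n + 1) / 2 - 1 = m := by omega
      have e2 : n - 1 = 2 * m := by omega
      rw [e1, e2, hm]
      constructor
      · intro h
        have : m < 5 := by
          by_contra hcon
          push Not at hcon
          apply h
          refine ⟨by omega, ?_⟩
          nlinarith
        omega
      · intro h
        have hk : m ≤ 4 := by omega
        intro hcon
        interval_cases m <;> omega

end Pool.Agent.Results.MP_4befb3_co.ExactValue
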